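import Pool.Agent.H57.FK.Main
import Pool.Agent.H57.AS.Parts

/-!
# Few classes: commutative schemes, generously transitive graphs, parts
-/

set_option autoImplicit false
set_option linter.unusedSectionVars false

open Finset
open scoped Classical

namespace Pool.Agent.H57.FK

open Pool.Agent.H57.AS (Sc Iv fuse CommScheme orb orb_iff parts)

/-- the theorem for commutative schemes -/
theorem gs_comm {m : ℕ} (F : SimpleGraph (Fin m)) (hF : F.IsAcyclic) (k s : ℕ) :
    ∃ C : ℕ, ∀ (Ω I : Type) [Finite Ω] (G : SimpleGraph Ω) (cl : Ω → Ω → I), CommScheme cl →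
      (∀ x y x' y', cl x y = cl x' y' → G.Adj x y → G.Adj x' y') →
      {c | ∃ x y, G.Adj x y ∧ cl x y = c}.ncard ≤ s → G.CliqueFree (k + 1) →
      IsEmpty (F ↪g G) → G.Colorable C := by
  obtain ⟨C, hC⟩ := gs_sym F hF k s
  refine ⟨C, ?_⟩
  intro Ω I _ G cl hcl hG hs hK hemp
  have : Fintype Ω := Fintype.ofFinite Ω
  refine hC Ω (Sym2 I) G (fun x y => s(cl x y, cl y x)) (fuse hcl) ?_ ?_ hK hemp
  · intro x y x' y' hxy h
    simp only [Sym2.eq_iff] at hxy
    rcases hxy with hxy | hxy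
    · exact hG _ _ _ _ hxy.1 h
    · exact (hG _ _ _ _ hxy.1 h).symm
  · have h1 : {c | ∃ x y, G.Adj x y ∧ cl x y = c} = (cls cl G.Adj : Set I) := by
      ext c
      rw [mem_coe, mem_cls]
      rfl
    rw [h1, Set.ncard_coe_finset] at hs
    obtain ⟨g, hg⟩ : ∃ g : I → Sym2 I, ∀ x y, g (cl x y) = s(cl x y, cl y x) := by
      refine ⟨fun i => if h : ∃ p : Ω × Ω, cl p.1 p.2 = i then
        s(cl h.choose.1 h.choose.2, cl h.choose.2 h.choose.1) else s(i, i), ?_⟩
      intro x y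
      have h : ∃ p : Ω × Ω, cl p.1 p.2 = cl x y := ⟨(x, y), rfl⟩
      simp only [dif_pos h]
      have h2 := h.choose_spec
      rw [hcl.transpose _ _ _ _ h2, h2]
    have h2 : cls (fun x y => s(cl x y, cl y x)) G.Adj ⊆ (cls cl G.Adj).image g := by
      intro c hc
      rw [mem_cls] at hc
      obtain ⟨x, y, h3, h4⟩ := hc
      rw [mem_image]
      refine ⟨cl x y, mem_cls.2 ⟨x, y, h3, rfl⟩, ?_⟩
      rw [hg]
      exact h4
    exact (card_le_card h2).trans (card_image_le.trans hs)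

/-- the orbits of a generously transitive graph -/
theorem orb_sc {Ω : Type} [Finite Ω] (G : SimpleGraph Ω)
    (hgen : ∀ x y : Ω, ∃ σ : G ≃g G, σ x = y ∧ σ y = x) : Sc (orb G) ∧ Iv (orb G) G.Adj := by
  refine ⟨?_, ?_⟩
  · refine ⟨?_, ?_, ?_, ?_⟩
    · intro x y
      rw [orb_iff]
      exact hgen x y
    · intro x y z h
      rw [orb_iff] at h
      obtain ⟨σ, h1, h2⟩ := h
      exact h1.symm.trans h2
    · intro x y
      rw [orb_iff]
      obtain ⟨σ, h1, -⟩ := hgen x y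
      exact ⟨σ, h1, h1⟩
    · intro x y x' y' h
      rw [orb_iff] at h
      obtain ⟨σ, rfl, rfl⟩ := h
      refine ⟨σ.toEquiv, fun z => ⟨?_, ?_⟩⟩
      · symm
        rw [orb_iff]
        exact ⟨σ, rfl, rfl⟩
      · symm
        rw [orb_iff]
        exact ⟨σ, rfl, rfl⟩
  · intro x y x' y' h h1
    rw [orb_iff] at h
    obtain ⟨σ, rfl, rfl⟩ := h
    exact σ.map_rel_iff'.2 h1

/-- the theorem for generously transitive graphs -/
theorem gs_gen {m : ℕ} (F : SimpleGraph (Fin m)) (hF : F.IsAcyclic) (k s : ℕ) :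
    ∃ C : ℕ, ∀ (Ω : Type) [Finite Ω] (G : SimpleGraph Ω),
      (∀ x y : Ω, ∃ σ : G ≃g G, σ x = y ∧ σ y = x) →
      (∃ E : Finset (Ω × Ω), E.card ≤ s ∧ ∀ x y, G.Adj x y → ∃ p ∈ E, ∃ σ : G ≃g G,
        σ p.1 = x ∧ σ p.2 = y) → G.CliqueFree (k + 1) →
      IsEmpty (F ↪g G) → G.Colorable C := by
  obtain ⟨C, hC⟩ := gs_sym F hF k s
  refine ⟨C, ?_⟩
  intro Ω _ G hgen hE hK hemp
  have : Fintype Ω := Fintype.ofFinite Ω
  obtain ⟨h1, h2⟩ := orb_sc G hgen
  refine hC Ω (Set (Ω × Ω)) G (orb G) h1 h2 ?_ hK hemp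
  obtain ⟨E, hE1, hE2⟩ := hE
  have h3 : cls (orb G) G.Adj ⊆ E.image fun p => orb G p.1 p.2 := by
    intro c hc
    rw [mem_cls] at hc
    obtain ⟨x, y, h4, h5⟩ := hc
    obtain ⟨p, hp, σ, h6, h7⟩ := hE2 x y h4
    rw [mem_image]
    exact ⟨p, hp, ((orb_iff G _ _ _ _).2 ⟨σ, h6, h7⟩).trans h5⟩
  exact (card_le_card h3).trans (card_image_le.trans hE1)

/-- the theorem for schemes on the parts -/
theorem gs_parts {m : ℕ} (F : SimpleGraph (Fin m)) (hF : F.IsAcyclic) (s : ℕ) :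
    ∃ f : ℕ → ℕ, ∀ (V : Type) [Finite V] (G : SimpleGraph V) (r : ℕ) (part : V → Fin r),
      (∀ i : Fin r,
        (∃ (I : Type) (cl : {v : V // part v = i} → {v : V // part v = i} → I), CommScheme cl ∧
          (∀ x y x' y', cl x y = cl x' y' → G.Adj x y → G.Adj x' y') ∧
          {c | ∃ x y : {v : V // part v = i}, G.Adj x y ∧ cl x y = c}.ncard ≤ s) ∨
        ((∀ x y : {v : V | part v = i}, ∃ σ : G.induce {v : V | part v = i} ≃g
          G.induce {v : V | part v = i}, σ x = y ∧ σ y = x) ∧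
          ∃ E : Finset ({v : V | part v = i} × {v : V | part v = i}), E.card ≤ s ∧
            ∀ x y : {v : V | part v = i}, G.Adj x y → ∃ p ∈ E,
              ∃ σ : G.induce {v : V | part v = i} ≃g G.induce {v : V | part v = i},
                σ p.1 = x ∧ σ p.2 = y)) →
      ¬ F.IsIndContained G → G.Colorable (f G.cliqueNum * r) := by
  choose C₁ hC₁ using fun k => gs_comm F hF k s
  choose C₂ hC₂ using fun k => gs_gen F hF k s
  refine ⟨fun k => max (C₁ k) (C₂ k), ?_⟩
  intro V _ G r part h hind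
  apply parts part
  intro i
  have hK : G.CliqueFree (G.cliqueNum + 1) := by
    have : Fintype V := Fintype.ofFinite V
    intro s hs
    have h1 := hs.isClique.card_le_cliqueNum
    rw [hs.card_eq] at h1
    omega
  have hKi : (G.induce {v | part v = i}).CliqueFree (G.cliqueNum + 1) :=
    SimpleGraph.CliqueFree.comap ⟨(SimpleGraph.Embedding.induce {v | part v = i}).toCopy⟩ hK
  have hemp : IsEmpty (F ↪g G.induce {v | part v = i}) :=
    ⟨fun f => hind ⟨f.trans (SimpleGraph.Embedding.induce {v | part v = i})⟩⟩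
  rcases h i with ⟨I, cl, hcl, hadj, hs⟩ | ⟨hgen, hs⟩
  · exact (hC₁ _ {v // part v = i} I (G.induce {v | part v = i}) cl hcl
      (fun x y x' y' hxy h1 => hadj x y x' y' hxy h1) hs hKi hemp).mono (le_max_left _ _)
  · exact (hC₂ _ {v | part v = i} (G.induce {v | part v = i}) hgen hs hKi hemp).mono
      (le_max_right _ _)

end Pool.Agent.H57.FK
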