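import Pool.Agent.H57.AS.Near

/-!
# Many near vertices, all clique numbers
-/

set_option autoImplicit false
set_option linter.unusedSectionVars false

open Finset
open scoped Classical

namespace Pool.Agent.H57.FK

open Pool.Agent.H57.AS
open Pool.Agent.W259.GS (Sh)
open Pool.Agent.K4H78.TW (df mem_df cluster)

/-- many near vertices -/
theorem near (k : ℕ) (hk : 1 ≤ k) (m N₀ : ℕ) (T : SimpleGraph (Fin (m + 1))) (hT : T.IsTree) (κ : ℝ)
    (hκ : 0 < κ) (hκ1 : κ ≤ 1) :
    ∃ η K : ℝ, 0 < η ∧ 0 < K ∧ ∀ (Ω I : Type) [Fintype Ω] (cl : Ω → Ω → I) (G : SimpleGraph Ω)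
      (A X : Ω → Ω → Prop), Sc cl → Iv cl A → (∀ x y, G.Adj x y ↔ A x y) → G.CliqueFree (k + 1) →
      (∀ Y : Finset Ω, Sh G Y Set.univ → Y.card < N₀) →
      (∀ f : Fin (m + 1) → Ω, Function.Injective f →
        ¬ ∀ a b, T.Adj a b ↔ G.Adj (f a) (f b)) → Iv cl X → (∀ x y, X x y → A x y) →
      (∀ x, 0 < dg X x) →
      (∀ p q, (ct X (fun x y => A x y ∧ ¬ X x y) p q : ℝ) ≤ η * dg X p) →
      ∀ x, (dg X x : ℝ) ≤ K * (dg (br (nm X) κ) x : ℝ) := by
  obtain ⟨ε, hε⟩ : ∃ ε : ℝ, ε = κ / 8 := ⟨_, rfl⟩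
  have hε0 : 0 < ε := by rw [hε]; positivity
  obtain ⟨δ, hδ, d0, hemb⟩ := embed_tree (m + 1) k (by omega) hk (ε / 2) (by positivity)
    (by rw [hε]; linarith)
  obtain ⟨C, D, hC1, hC⟩ := cluster N₀
  obtain ⟨β, hβ⟩ : ∃ β : ℝ, β = min (δ / 2) (min (ε ^ 2 / 8) 1) := ⟨_, rfl⟩
  have hβ0 : 0 < β := by
    rw [hβ]
    exact lt_min (by positivity) (lt_min (by positivity) one_pos)
  have hβδ : β ≤ δ / 2 := by rw [hβ]; exact min_le_left _ _
  have hβε : β ≤ ε ^ 2 / 8 := by rw [hβ]; exact (min_le_right _ _).trans (min_le_left _ _)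
  have hβ1 : β ≤ 1 := by rw [hβ]; exact (min_le_right _ _).trans (min_le_right _ _)
  have hβκ : β ≤ κ / 4 := by
    refine hβε.trans ?_
    rw [hε]
    nlinarith
  obtain ⟨q, hq⟩ : ∃ q : ℕ, q = ⌈4 / (κ * β)⌉₊ := ⟨_, rfl⟩
  have hq1 : 4 / (κ * β) ≤ q := by rw [hq]; exact Nat.le_ceil _
  have hq0 : (0 : ℝ) < q := lt_of_lt_of_le (by positivity) hq1
  have hq2 : 1 ≤ q := by
    have : 0 < q := by exact_mod_cast hq0
    exact this
  refine ⟨β, (|d0| + 1) + 4 / ε * (C * q ^ D), hβ0, by positivity, ?_⟩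
  intro Ω I _ cl G A X hS hA hG hK hSh hno hX hXA h0 hs x₀
  obtain ⟨d, hdd⟩ : ∃ d : ℝ, d = dg X x₀ := ⟨_, rfl⟩
  have hd : ∀ x, (dg X x : ℝ) = d := by
    intro x
    rw [hdd]
    exact_mod_cast dg_eq hS hX x x₀
  have hn : 0 < d := by rw [hdd]; exact_mod_cast h0 x₀
  have hs' : ∀ p q, (ct X (fun x y => A x y ∧ ¬ X x y) p q : ℝ) ≤ β * d := by
    intro p q
    have := hs p q
    rwa [hd] at this
  have hmt := nm_mt hS hX h0
  have hB1 : (1 : ℝ) ≤ dg (br (nm X) κ) x₀ := by
    have : 0 < dg (br (nm X) κ) x₀ := by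
      apply card_pos.2
      refine ⟨x₀, ?_⟩
      rw [mem_filter]
      refine ⟨mem_univ _, ?_⟩
      unfold br
      rw [hmt.zero]
      exact hκ.le
    exact_mod_cast this
  have hCq : (0 : ℝ) ≤ 4 / ε * ((C : ℝ) * (q : ℝ) ^ D) := by positivity
  rw [hd]
  by_cases hbig : d0 ≤ d
  swap
  · push Not at hbig
    have h1 : d ≤ |d0| + 1 := by
      have := le_abs_self d0
      linarith
    calc d ≤ (|d0| + 1) * 1 := by linarith
      _ ≤ (|d0| + 1) * dg (br (nm X) κ) x₀ := mul_le_mul_of_nonneg_left hB1 (by positivity)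
      _ ≤ _ := mul_le_mul_of_nonneg_right (by linarith) (by linarith)
  -- light pairs
  obtain ⟨Lt, hLt⟩ : ∃ Lt : Ω → Ω → Prop, Lt = fun z w => (ct X X z w : ℝ) < β * d ∧ ¬ A z w :=
    ⟨_, rfl⟩
  obtain ⟨La, hLa⟩ : ∃ La : Ω → Ω → Prop, La = fun z w => (ct X X z w : ℝ) < β * d ∧ A z w :=
    ⟨_, rfl⟩
  have hivc : Iv cl fun z w => (ct X X z w : ℝ) < β * d :=
    iv_fn (f := fun z w => (ct X X z w : ℝ)) (fun x y x' y' h => by
      rw [ct_inv hS hX hX h]) (fun t => t < β * d)
  have hLti : Iv cl Lt := by rw [hLt]; exact hivc.and hA.not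
  have hLai : Iv cl La := by rw [hLa]; exact hivc.and hA
  obtain ⟨S, hSd⟩ : ∃ S : Ω → Ω → Prop, S = fun z x => X z x ∧ ¬ ((ct Lt X z x : ℝ) ≤ ε * d) :=
    ⟨_, rfl⟩
  obtain ⟨H, hHd⟩ : ∃ H : Ω → Ω → Prop, H = fun z x => X z x ∧ ((ct Lt X z x : ℝ) ≤ ε * d) :=
    ⟨_, rfl⟩
  have hivl : Iv cl fun z x => (ct Lt X z x : ℝ) ≤ ε * d :=
    iv_fn (f := fun z w => (ct Lt X z w : ℝ)) (fun x y x' y' h => by
      rw [ct_inv hS hLti hX h]) (fun t => t ≤ ε * d)
  have hSi : Iv cl S := by rw [hSd]; exact hX.and hivl.not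
  have hHi : Iv cl H := by rw [hHd]; exact hX.and hivl
  have hsum : ∀ x, (dg S x : ℝ) + dg H x = d := by
    intro x
    rw [← hd x]
    have h1 : dg S x + dg H x = dg X x := by
      unfold dg
      rw [← card_union_of_disjoint]
      · congr 1
        ext z
        simp only [mem_union, mem_filter, mem_univ, true_and, hSd, hHd]
        tauto
      · rw [disjoint_left]
        intro z hz hz'
        rw [mem_filter, hSd] at hz
        rw [mem_filter, hHd] at hz'
        exact hz.2.2 hz'.2.2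
    exact_mod_cast h1
  -- heavy classes
  have hheavy : ε / 2 * d ≤ dg H x₀ := by
    by_contra hcon
    push Not at hcon
    have hHc : ∀ x, (dg H x : ℝ) < ε / 2 * d := by
      intro x
      rw [dg_eq hS hHi x x₀]
      exact hcon
    have hls : LS G d δ (ε / 2) S (fun z x => univ.filter fun w => S x w ∧ Lt z w) := by
      refine ⟨?_, ?_, ?_, ?_, ?_⟩
      · intro z x hzx
        rw [hSd] at hzx
        exact (hG _ _).2 (hXA _ _ hzx.1)
      · intro v
        have h1 := hsum v
        have h2 : (0 : ℝ) ≤ dg H v := Nat.cast_nonneg _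
        have h3 : (dg S v : ℝ) ≤ d := by linarith
        exact h3
      · intro z x _ w hw
        rw [mem_filter] at hw
        obtain ⟨-, h1, h2⟩ := hw
        rw [hLt] at h2
        refine ⟨h1, ?_, fun h3 => h2.2 ((hG _ _).1 h3)⟩
        rintro rfl
        have h3 := h2.1
        rw [ct_self hS hX, hd] at h3
        nlinarith
      · intro z x hzx
        rw [hSd] at hzx
        have h1 := hzx.2
        push Not at h1
        have h2 : ct Lt X z x ≤ (univ.filter fun w => S x w ∧ Lt z w).card + dg H x := by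
          refine (card_le_card ?_).trans (card_union_le _ _)
          intro w hw
          rw [mem_filter] at hw
          have h3 := (hX.comm hS _ _).1 hw.2.2
          rw [mem_union, mem_filter, mem_filter]
          by_cases h4 : (ct Lt X x w : ℝ) ≤ ε * d
          · right
            refine ⟨mem_univ _, ?_⟩
            rw [hHd]
            exact ⟨h3, h4⟩
          · left
            refine ⟨mem_univ _, ?_, hw.2.1⟩
            rw [hSd]
            exact ⟨h3, h4⟩
        have h3 : (ct Lt X z x : ℝ) ≤ (univ.filter fun w => S x w ∧ Lt z w).card + dg H x := by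
          exact_mod_cast h2
        have h4 := hHc x
        linarith
      · intro p Lp hLp l
        have h1 := sum_bd hS hX hA d hd β β hβ0.le hβ0.le hs' p l Lp (by
          intro w hw
          have := hLp w hw
          rw [hSd] at this
          exact this.1)
        have h2 : ∑ w ∈ Lp, (((univ.filter fun w' => S w w' ∧ Lt p w').filter
            (fun y => G.Adj l y)).card : ℝ) ≤ ∑ w ∈ Lp, ((univ.filter fun y =>
            X w y ∧ (ct X X p y : ℝ) < β * d ∧ A l y).card : ℝ) := by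
          apply sum_le_sum
          intro w _
          have : ((univ.filter fun w' => S w w' ∧ Lt p w').filter
            (fun y => G.Adj l y)).card ≤ (univ.filter fun y =>
            X w y ∧ (ct X X p y : ℝ) < β * d ∧ A l y).card := by
            apply card_le_card
            intro y hy
            rw [mem_filter, mem_filter, hSd, hLt] at hy
            rw [mem_filter]
            exact ⟨mem_univ _, hy.1.2.1.1, hy.1.2.2.1, (hG _ _).1 hy.2⟩
          exact_mod_cast this
        refine (h2.trans h1).trans ?_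
        have h3 : β + β ≤ δ := by linarith
        exact mul_le_mul_of_nonneg_right (mul_le_mul_of_nonneg_right h3 hn.le) hn.le
    obtain ⟨f, hf1, hf2⟩ := hemb Ω G d S _ hbig hls (by
      have h1 := hsum x₀
      have h2 : (0 : ℝ) < dg S x₀ := by
        have : ε / 2 * d ≤ d / 2 := by
          have : ε ≤ 1 := by rw [hε]; linarith
          nlinarith
        linarith
      have h3 : 0 < dg S x₀ := by exact_mod_cast h2
      obtain ⟨y, hy⟩ := card_pos.1 h3
      exact ⟨x₀, y, (mem_filter.1 hy).2⟩) hK m (by omega) (Fin (m + 1)) T hT (by simp)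
    exact hno f hf1 hf2
  -- few paths with adjacent ends
  obtain ⟨H', hH'd⟩ : ∃ H' : Finset Ω, H' = univ.filter fun x => H x₀ x ∧
    ((ct La X x₀ x : ℝ) ≤ ε * d) := ⟨_, rfl⟩
  have hH'c : ε / 4 * d ≤ H'.card := by
    obtain ⟨E, hE⟩ : ∃ E : Finset Ω, E = univ.filter fun x => X x₀ x ∧
      ¬ ((ct La X x₀ x : ℝ) ≤ ε * d) := ⟨_, rfl⟩
    have h1 : (E.card : ℝ) * (ε * d) ≤ (β + β) * d * d := by
      refine le_trans ?_ (sum_bd hS hX hA d hd β β hβ0.le hβ0.le hs' x₀ x₀ E (by
        intro w hw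
        rw [hE, mem_filter] at hw
        exact hw.2.1))
      rw [← nsmul_eq_mul, ← sum_const]
      apply sum_le_sum
      intro x hx
      rw [hE, mem_filter] at hx
      have h2 := hx.2.2
      push Not at h2
      refine h2.le.trans ?_
      have : ct La X x₀ x ≤ (univ.filter fun y =>
            X x y ∧ (ct X X x₀ y : ℝ) < β * d ∧ A x₀ y).card := by
        apply card_le_card
        intro y hy
        rw [mem_filter, hLa] at hy
        rw [mem_filter]
        exact ⟨mem_univ _, (hX.comm hS _ _).1 hy.2.2, hy.2.1.1, hy.2.1.2⟩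
      exact_mod_cast this
    have h2 : (E.card : ℝ) * (ε * d) ≤ (ε / 4 * d) * (ε * d) := by
      refine h1.trans ?_
      have h3 : (β + β) * d * d ≤ (ε ^ 2 / 4) * d * d :=
        mul_le_mul_of_nonneg_right (mul_le_mul_of_nonneg_right (by linarith) hn.le) hn.le
      nlinarith
    have h3 : (E.card : ℝ) ≤ ε / 4 * d := le_of_mul_le_mul_right h2 (by positivity)
    have h4 : dg H x₀ ≤ H'.card + E.card := by
      refine (card_le_card ?_).trans (card_union_le _ _)
      intro x hx
      rw [mem_filter] at hx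
      rw [mem_union, hH'd, hE, mem_filter, mem_filter]
      by_cases h5 : (ct La X x₀ x : ℝ) ≤ ε * d
      · left; exact ⟨mem_univ _, hx.2, h5⟩
      · right
        have h6 := hx.2
        rw [hHd] at h6
        exact ⟨mem_univ _, h6.1, h5⟩
    have h5 : (dg H x₀ : ℝ) ≤ H'.card + E.card := by exact_mod_cast h4
    linarith
  -- window
  obtain ⟨W, hW⟩ : ∃ W : Finset Ω, W = univ.filter fun z => β * d ≤ (ct X X x₀ z : ℝ) := ⟨_, rfl⟩
  have hWc : β * (W.card : ℝ) ≤ d := by
    have h1 := pop_card hS hX (β * d) x₀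
    rw [← hW, hd] at h1
    have h2 : β * (W.card : ℝ) * d ≤ d * d := by
      calc β * (W.card : ℝ) * d = W.card * (β * d) := by ring
        _ ≤ _ := h1
        _ = _ := by ring
    exact le_of_mul_le_mul_right h2 hn
  obtain ⟨X', hX'H, hX'c, hX'⟩ := hC Ω G W H' q hq2 hSh
  have hH'0 : (0 : ℝ) < H'.card := lt_of_lt_of_le (by positivity) hH'c
  have hX'ne : X'.Nonempty := by
    rw [nonempty_iff_ne_empty]
    intro h
    rw [h, card_empty, mul_zero] at hX'c
    have : 0 < H'.card := by exact_mod_cast hH'0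
    omega
  obtain ⟨x₁, hx₁⟩ := hX'ne
  have hkey : ∀ x ∈ X', nm X x₁ x ≤ κ := by
    intro x hx
    have hdf : ((df G W x₁ x).card : ℝ) ≤ κ / 4 * d := by
      have h1 : (q : ℝ) * ((df G W x₁ x).card : ℝ) ≤ W.card := by
        exact_mod_cast hX' x₁ hx₁ x hx
      have h2 : (4 / (κ * β)) * ((df G W x₁ x).card : ℝ) ≤ W.card :=
        le_trans (mul_le_mul_of_nonneg_right hq1 (Nat.cast_nonneg _)) h1
      have h3 : β * ((4 / (κ * β)) * ((df G W x₁ x).card : ℝ)) ≤ d :=
        (mul_le_mul_of_nonneg_left h2 hβ0.le).trans hWc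
      have h4 : β * ((4 / (κ * β)) * ((df G W x₁ x).card : ℝ)) =
          4 / κ * ((df G W x₁ x).card : ℝ) := by
        field_simp
      rw [h4] at h3
      have h5 : κ / 4 * (4 / κ * ((df G W x₁ x).card : ℝ)) ≤
          κ / 4 * d := mul_le_mul_of_nonneg_left h3 (by positivity)
      have h6 : κ / 4 * (4 / κ * ((df G W x₁ x).card : ℝ)) =
          ((df G W x₁ x).card : ℝ) := by
        field_simp
      rwa [h6] at h5
    have hx₁' := hX'H hx₁
    rw [hH'd, mem_filter, hHd] at hx₁'
    obtain ⟨-, ⟨-, h1⟩, h2⟩ := hx₁'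
    have h3 : dg X x₁ ≤ ct X X x₁ x + ((ct Lt X x₀ x₁ + ct La X x₀ x₁) + ((df G W x₁ x).card +
        ct X (fun x y => A x y ∧ ¬ X x y) x₁ x)) := by
      have h4 : (univ.filter fun z => X x₁ z) ⊆ (univ.filter fun z => X x₁ z ∧ X z x) ∪
          (((univ.filter fun z => Lt x₀ z ∧ X z x₁) ∪ (univ.filter fun z => La x₀ z ∧ X z x₁)) ∪
            (df G W x₁ x ∪ univ.filter fun z => X x₁ z ∧ (A z x ∧ ¬ X z x))) := by
        intro z hz
        rw [mem_filter] at hz
        have hz1 := hz.2
        simp only [mem_union, mem_filter, mem_univ, true_and, mem_df, hLt, hLa, hW]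
        by_cases h5 : (ct X X x₀ z : ℝ) < β * d
        · have h6 := (hX.comm hS _ _).1 hz1
          by_cases h7 : A x₀ z
          · right; left; right; exact ⟨⟨h5, h7⟩, h6⟩
          · right; left; left; exact ⟨⟨h5, h7⟩, h6⟩
        · push Not at h5
          by_cases h6 : X z x
          · left; exact ⟨hz1, h6⟩
          by_cases h7 : A z x
          · right; right; right; exact ⟨hz1, h7, h6⟩
          · right; right; left
            refine ⟨h5, ?_⟩
            intro h8
            apply h7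
            apply (hA.comm hS _ _).1
            exact (hG _ _).1 (h8.1 ((hG _ _).2 (hXA _ _ hz1)))
      refine (card_le_card h4).trans ((card_union_le _ _).trans ?_)
      apply Nat.add_le_add_left
      refine (card_union_le _ _).trans ?_
      refine Nat.add_le_add (card_union_le _ _) ((card_union_le _ _).trans
        (Nat.add_le_add_left (card_le_ct ?_) _))
      intro y hy
      exact (mem_filter.1 hy).2
    have h4 : d ≤ ct X X x₁ x + ((ct Lt X x₀ x₁ + ct La X x₀ x₁) + ((df G W x₁ x).card +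
        ct X (fun x y => A x y ∧ ¬ X x y) x₁ x)) := by
      rw [← hd x₁]
      exact_mod_cast h3
    have h5 := hs' x₁ x
    have h6 : β * d ≤ κ / 4 * d := mul_le_mul_of_nonneg_right hβκ hn.le
    have h7 : ε * d = κ / 8 * d := by rw [hε]
    have h8 : (1 - κ) * d ≤ ct X X x₁ x := by nlinarith
    unfold nm
    rw [hd]
    have h9 : 1 - κ ≤ (ct X X x₁ x : ℝ) / d := by
      rw [le_div_iff₀ hn]; exact h8
    linarith
  have hcard : (X'.card : ℝ) ≤ dg (br (nm X) κ) x₀ := by
    rw [dg_eq hS (hmt.iv κ) x₀ x₁]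
    have : X'.card ≤ dg (br (nm X) κ) x₁ := by
      apply card_le_card
      intro x hx
      rw [mem_filter]
      exact ⟨mem_univ _, hkey x hx⟩
    exact_mod_cast this
  have h1 : (H'.card : ℝ) ≤ C * q ^ D * X'.card := by exact_mod_cast hX'c
  have h2 : d ≤ 4 / ε * H'.card := by
    have : 4 / ε * (ε / 4 * d) = d := by field_simp
    rw [← this]
    exact mul_le_mul_of_nonneg_left hH'c (by positivity)
  calc d ≤ 4 / ε * H'.card := h2
    _ ≤ 4 / ε * (C * q ^ D * X'.card) := mul_le_mul_of_nonneg_left h1 (by positivity)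
    _ = 4 / ε * (C * q ^ D) * X'.card := by ring
    _ ≤ 4 / ε * (C * q ^ D) * dg (br (nm X) κ) x₀ := mul_le_mul_of_nonneg_left hcard hCq
    _ ≤ _ := mul_le_mul_of_nonneg_right (by
      have : 0 ≤ |d0| := abs_nonneg _
      linarith) (by linarith)

end Pool.Agent.H57.FK
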