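import Pool.Agent.H57.AS.Stage
import Pool.Agent.H57.FK.Near

/-!
# Covered relations; the concentrated case
-/

set_option autoImplicit false
set_option linter.unusedSectionVars false

open Finset
open scoped Classical

namespace Pool.Agent.H57.FK

open Pool.Agent.H57.AS hiding St Pc Cov stage_conc near

section
variable {Ω I : Type} [Fintype Ω] {cl : Ω → Ω → I}

/-- metric with few separated points in balls -/
structure St (cl : Ω → Ω → I) (Sp : (Ω → Ω → ℝ) → Prop) (κ K : ℝ) (ν : Ω → Ω → ℝ) : Prop where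
  mt : Mt cl ν
  sepa : Sp ν
  dbl : ∀ x, (dg (br ν (1 / 4)) x : ℝ) ≤ K * dg (br ν κ) x

theorem St.mono {Sp : (Ω → Ω → ℝ) → Prop} {κ K K' : ℝ} {ν : Ω → Ω → ℝ} (h : St cl Sp κ K ν)
    (hK : K ≤ K') : St cl Sp κ K' ν :=
  ⟨h.mt, h.sepa, fun x => (h.dbl x).trans (mul_le_mul_of_nonneg_right hK (Nat.cast_nonneg _))⟩

/-- relation covered by few balls -/
def Pc (cl : Ω → Ω → I) (Sp : (Ω → Ω → ℝ) → Prop) (κ K N r : ℝ) (W : Ω → Ω → Prop) : Prop :=
  Iv cl W ∧ ∃ ν : Ω → Ω → ℝ, St cl Sp κ K ν ∧ ∀ q, ∃ Y : Finset Ω, (Y.card : ℝ) ≤ N ∧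
    ∀ v, W q v → ∃ y ∈ Y, ν y v ≤ r

theorem Pc.mono {Sp : (Ω → Ω → ℝ) → Prop} {κ K K' N N' r r' : ℝ} {W : Ω → Ω → Prop}
    (h : Pc cl Sp κ K N r W) (hK : K ≤ K') (hN : N ≤ N') (hr : r ≤ r') :
    Pc cl Sp κ K' N' r' W := by
  obtain ⟨h1, ν, h2, h3⟩ := h
  refine ⟨h1, ν, h2.mono hK, fun q => ?_⟩
  obtain ⟨Y, h4, h5⟩ := h3 q
  refine ⟨Y, h4.trans hN, fun v hv => ?_⟩
  obtain ⟨y, hy, h6⟩ := h5 v hv
  exact ⟨y, hy, h6.trans hr⟩

/-- covered by few such relations -/
def Cov (cl : Ω → Ω → I) (Sp : (Ω → Ω → ℝ) → Prop) (κ K N r : ℝ) (V : Ω → Ω → Prop) : Prop :=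
  ∃ 𝒲 : Finset (Ω → Ω → Prop), (𝒲.card : ℝ) ≤ N ∧ (∀ W ∈ 𝒲, Pc cl Sp κ K N r W) ∧
    ∀ x y, V x y → ∃ W ∈ 𝒲, W x y

theorem Cov.mono {Sp : (Ω → Ω → ℝ) → Prop} {κ K K' N N' r r' : ℝ} {V V' : Ω → Ω → Prop}
    (h : Cov cl Sp κ K N r V) (hK : K ≤ K') (hN : N ≤ N') (hr : r ≤ r')
    (hV : ∀ x y, V' x y → V x y) : Cov cl Sp κ K' N' r' V' := by
  obtain ⟨𝒲, h1, h2, h3⟩ := h
  exact ⟨𝒲, h1.trans hN, fun W hW => (h2 W hW).mono hK hN hr, fun x y h => h3 x y (hV x y h)⟩

/-- the concentrated case -/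
theorem stage_conc {A V : Ω → Ω → Prop} {Sp : (Ω → Ω → ℝ) → Prop} (hS : Sc cl) (hA : Iv cl A) (hV : Iv cl V)
    (m : ℕ) (κ K N r η : ℝ) (hN : 1 ≤ N) (hη : 0 < η) (hr : 0 ≤ r)
    (𝒲 : Finset (Ω → Ω → Prop)) (hWN : (𝒲.card : ℝ) ≤ N)
    (hW : ∀ W ∈ 𝒲, Pc cl Sp κ K N r W) (hWV : ∀ x y, V x y → ∃ W ∈ 𝒲, W x y)
    (X : Ω → Ω → Prop) (hX : X = fun x y => A x y ∧ ¬ V x y) (d : ℝ) (hd : 0 < d)
    (hdd : ∀ x, (dg X x : ℝ) = d)
    (ν : Ω → Ω → ℝ) (hν : St cl Sp κ K ν) (p₁ u₁ : Ω)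
    (hu : η * d ≤ (ct X (br ν r) p₁ u₁ : ℝ)) :
    ∃ V' : Ω → Ω → Prop, Nx cl A m V V' ∧
      Cov cl Sp κ K (2 * N + 1 + 2 * N ^ 3 / (η / (4 * (m + 1))) + (1 / (η / (4 * (m + 1)))) ^ 2)
        (6 * r) V' := by
  have hXi : Iv cl X := by rw [hX]; exact hA.and hV.not
  have hm1 : (0 : ℝ) < (m : ℝ) + 1 := by positivity
  obtain ⟨c, hc⟩ : ∃ c : ℝ, c = η / (4 * (m + 1)) := ⟨_, rfl⟩
  rw [← hc]
  have hc0 : 0 < c := by rw [hc]; positivity
  have hcη : c ≤ η := by
    rw [hc]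
    apply div_le_self hη.le
    linarith
  have hN0 : 0 < N := by linarith
  obtain ⟨N', hN'⟩ : ∃ N' : ℝ, N' = 2 * N + 1 + 2 * N ^ 3 / c + (1 / c) ^ 2 := ⟨_, rfl⟩
  rw [← hN']
  have hp1 : 0 < 2 * N ^ 3 / c := by positivity
  have hp2 : 0 < (1 / c) ^ 2 := by positivity
  have hNN' : N ≤ N' := by rw [hN']; linarith
  have hB : ∀ (ν : Ω → Ω → ℝ), Mt cl ν → ∀ s, Iv cl (br ν s) := fun ν h s => h.iv s
  -- the new relations
  obtain ⟨R, hR⟩ : ∃ R : Ω → Ω → Prop, R = fun x u => c * d ≤ (ct X (br ν r) x u : ℝ) := ⟨_, rfl⟩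
  have hRi : Iv cl R := by rw [hR]; exact iv_ct hS hXi (hB ν hν.mt r) _
  obtain ⟨Va, hVa⟩ : ∃ Va : (Ω → Ω → Prop) → Ω → Ω → Prop, Va = fun W q p =>
    c / N * d ≤ (ct X W q p : ℝ) := ⟨_, rfl⟩
  have hVai : ∀ W ∈ 𝒲, Iv cl (Va W) := by
    intro W h
    rw [hVa]
    exact iv_ct hS hXi (hW W h).1 _
  obtain ⟨RR, hRR⟩ : ∃ RR : Ω → Ω → Prop, RR = fun x y => ∃ z, R x z ∧ R z y := ⟨_, rfl⟩
  have hRRi : Iv cl RR := by rw [hRR]; exact iv_comp hS hRi hRi
  obtain ⟨V', hV'⟩ : ∃ V' : Ω → Ω → Prop, V' = fun q p => V q p ∨ (∃ W ∈ 𝒲, Va W q p) ∨ RR q p :=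
    ⟨_, rfl⟩
  have hV'i : Iv cl V' := by
    rw [hV']
    intro x y x' y' h h1
    rcases h1 with h1 | ⟨W, h1, h2⟩ | h1
    · exact Or.inl (hV _ _ _ _ h h1)
    · exact Or.inr (Or.inl ⟨W, h1, hVai W h1 _ _ _ _ h h2⟩)
    · exact Or.inr (Or.inr (hRRi _ _ _ _ h h1))
  choose u hu' using fun p => occ hS p₁ u₁ p
  have huc : ∀ p, η * d ≤ (ct X (br ν r) p (u p) : ℝ) := by
    intro p
    rw [ct_inv hS hXi (hB ν hν.mt r) (hu' p)]
    exact hu
  refine ⟨V', ⟨hV'i, fun x y h => by rw [hV']; exact Or.inl h,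
    fun p => univ.filter fun b => X p b ∧ br ν r b (u p), ?_, ?_, ?_⟩, ?_⟩
  · intro p
    rw [← card_pos]
    have h1 : (0 : ℝ) < (ct X (br ν r) p (u p) : ℝ) := lt_of_lt_of_le (by positivity) (huc p)
    exact_mod_cast h1
  · intro p b hb
    have := (mem_filter.1 hb).2.1
    rw [hX] at this
    exact this
  · intro p q hpq
    rw [hV'] at hpq
    push Not at hpq
    obtain ⟨hz0, hz1, hz2⟩ := hpq
    have h1 : (ct X V p q : ℝ) ≤ c * d := by
      have h2 : ct X V p q ≤ ∑ W ∈ 𝒲, ct X W p q := by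
        have h3 : (univ.filter fun z => X p z ∧ V z q) ⊆
            𝒲.biUnion fun W => univ.filter fun z => X p z ∧ W z q := by
          intro z hz
          rw [mem_filter] at hz
          obtain ⟨W, hW1, hW2⟩ := hWV _ _ hz.2.2
          rw [mem_biUnion]
          exact ⟨W, hW1, mem_filter.2 ⟨mem_univ _, hz.2.1, hW2⟩⟩
        exact (card_le_card h3).trans card_biUnion_le
      have h3 : (ct X V p q : ℝ) ≤ ∑ W ∈ 𝒲, (ct X W p q : ℝ) := by exact_mod_cast h2
      have h4 : ∑ W ∈ 𝒲, (ct X W p q : ℝ) ≤ ∑ W ∈ 𝒲, c / N * d := by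
        apply sum_le_sum
        intro W hW1
        have h5 := hz1 W hW1
        rw [hVa] at h5
        push Not at h5
        rw [ct_symm hS hXi (hW W hW1).1]
        exact h5.le
      rw [sum_const, nsmul_eq_mul] at h4
      have h5 : (𝒲.card : ℝ) * (c / N * d) ≤ N * (c / N * d) :=
        mul_le_mul_of_nonneg_right hWN (by positivity)
      have h6 : N * (c / N * d) = c * d := by field_simp
      linarith
    have h2 : ((univ.filter fun b => X q b ∧ br ν r b (u p)).filter fun b => X p b).card ≤ c * d := by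
      by_contra hcon
      push Not at hcon
      apply hz2
      rw [hRR]
      refine ⟨u p, ?_, ?_⟩
      · rw [hR]
        refine hcon.le.trans ?_
        have : ((univ.filter fun b => X q b ∧ br ν r b (u p)).filter fun b => X p b).card ≤
            ct X (br ν r) q (u p) := by
          apply card_le_ct
          intro b hb
          rw [mem_filter, mem_filter] at hb
          exact hb.1.2
        exact_mod_cast this
      · apply (hRi.comm hS _ _).1
        rw [hR]
        refine le_trans ?_ (huc p)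
        exact mul_le_mul_of_nonneg_right hcη hd.le
    have h3 : ((univ.filter fun b => X p b ∧ br ν r b (u p)).filter fun b => A q b ∨ V q b) ⊆
        (univ.filter fun b => X p b ∧ V b q) ∪
          ((univ.filter fun b => X q b ∧ br ν r b (u p)).filter fun b => X p b) := by
      intro b hb
      rw [mem_filter, mem_filter] at hb
      obtain ⟨⟨-, hb1, hb2⟩, hb3⟩ := hb
      rw [mem_union, mem_filter, mem_filter, mem_filter]
      by_cases h4 : V q b
      · left; exact ⟨mem_univ _, hb1, (hV.comm hS _ _).1 h4⟩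
      · right
        refine ⟨⟨mem_univ _, ?_, hb2⟩, hb1⟩
        rw [hX]
        exact ⟨hb3.resolve_right h4, h4⟩
    have h4 := (card_le_card h3).trans (card_union_le _ _)
    have h5 : ((((univ.filter fun b => X p b ∧ br ν r b (u p)).filter fun b =>
        A q b ∨ V q b).card : ℕ) : ℝ) ≤ ct X V p q +
          (((univ.filter fun b => X q b ∧ br ν r b (u p)).filter fun b => X p b).card : ℝ) := by
      unfold ct
      exact_mod_cast h4
    have h6 : ((m : ℝ) + 1) * ((((univ.filter fun b => X p b ∧ br ν r b (u p)).filter fun b =>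
        A q b ∨ V q b).card : ℕ) : ℝ) <
        ((univ.filter fun b => X p b ∧ br ν r b (u p)).card : ℝ) := by
      have h7 : ((m : ℝ) + 1) * ((((univ.filter fun b => X p b ∧ br ν r b (u p)).filter fun b =>
        A q b ∨ V q b).card : ℕ) : ℝ) ≤ ((m : ℝ) + 1) * (2 * (c * d)) :=
        mul_le_mul_of_nonneg_left (by linarith) hm1.le
      have h8 : ((m : ℝ) + 1) * (2 * (c * d)) = η * d / 2 := by
        rw [hc]; field_simp; ring
      have h9 : 0 < η * d := by positivity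
      have h10 : η * d ≤ ((univ.filter fun b => X p b ∧ br ν r b (u p)).card : ℝ) := huc p
      linarith
    exact_mod_cast h6
  · -- the cover
    refine ⟨𝒲 ∪ (𝒲.image Va ∪ {RR}), ?_, ?_, ?_⟩
    · have h1 := (card_union_le 𝒲 (𝒲.image Va ∪ {RR})).trans (Nat.add_le_add_left
        ((card_union_le (𝒲.image Va) {RR}).trans (Nat.add_le_add_right card_image_le _)) _)
      rw [card_singleton] at h1
      have h2 : (((𝒲 ∪ (𝒲.image Va ∪ {RR})).card : ℕ) : ℝ) ≤ 𝒲.card + (𝒲.card + 1) := by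
        exact_mod_cast h1
      rw [hN']
      linarith
    · intro W' hW'
      rw [mem_union, mem_union, mem_singleton] at hW'
      rcases hW' with hW' | hW' | hW'
      · exact (hW W' hW').mono le_rfl hNN' (by linarith)
      · obtain ⟨W, hW1, rfl⟩ := mem_image.1 hW'
        refine ⟨hVai W hW1, ?_⟩
        obtain ⟨hWi, ν', hν', hY⟩ := hW W hW1
        refine ⟨ν', hν', fun q => ?_⟩
        obtain ⟨Y, hY1, hY2⟩ := hY q
        have hc' : 0 < c / (2 * N ^ 2) := by positivity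
        choose Z hZ1 hZ2 using fun y => cov_pop hν'.mt d hd hdd r (c / (2 * N ^ 2)) hr hc' y
        refine ⟨Y.biUnion Z, ?_, ?_⟩
        · have h1 : (((Y.biUnion Z).card : ℕ) : ℝ) ≤ ∑ y ∈ Y, ((Z y).card : ℝ) := by
            exact_mod_cast card_biUnion_le
          have h2 : ∑ y ∈ Y, ((Z y).card : ℝ) ≤ ∑ y ∈ Y, 1 / (c / (2 * N ^ 2)) :=
            sum_le_sum fun y _ => hZ1 y
          rw [sum_const, nsmul_eq_mul] at h2
          have h3 : (Y.card : ℝ) * (1 / (c / (2 * N ^ 2))) ≤ N * (1 / (c / (2 * N ^ 2))) :=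
            mul_le_mul_of_nonneg_right hY1 (by positivity)
          have h4 : N * (1 / (c / (2 * N ^ 2))) = 2 * N ^ 3 / c := by field_simp
          rw [hN']
          linarith
        · intro p hp
          rw [hVa] at hp
          have h1 : ∃ y ∈ Y, c / (2 * N ^ 2) * d ≤ (ct X (br ν' r) p y : ℝ) := by
            by_contra hcon
            push Not at hcon
            have h2 : ct X W p q ≤ ∑ y ∈ Y, ct X (br ν' r) p y := by
              have h3 : (univ.filter fun z => X p z ∧ W z q) ⊆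
                  Y.biUnion fun y => univ.filter fun z => X p z ∧ br ν' r z y := by
                intro z hz
                rw [mem_filter] at hz
                obtain ⟨y, hy1, hy2⟩ := hY2 z ((hWi.comm hS _ _).1 hz.2.2)
                rw [mem_biUnion]
                refine ⟨y, hy1, mem_filter.2 ⟨mem_univ _, hz.2.1, ?_⟩⟩
                unfold br
                rw [hν'.mt.symm]
                exact hy2
              exact (card_le_card h3).trans card_biUnion_le
            have h3 : (ct X W p q : ℝ) ≤ ∑ y ∈ Y, (ct X (br ν' r) p y : ℝ) := by exact_mod_cast h2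
            have h4 : ∑ y ∈ Y, (ct X (br ν' r) p y : ℝ) ≤ ∑ y ∈ Y, c / (2 * N ^ 2) * d :=
              sum_le_sum fun y hy => (hcon y hy).le
            rw [sum_const, nsmul_eq_mul] at h4
            have h5 : (Y.card : ℝ) * (c / (2 * N ^ 2) * d) ≤ N * (c / (2 * N ^ 2) * d) :=
              mul_le_mul_of_nonneg_right hY1 (by positivity)
            have h6 : N * (c / (2 * N ^ 2) * d) = c / N * d / 2 := by field_simp
            have h7 : 0 < c / N * d := by positivity
            rw [ct_symm hS hXi hWi] at h3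
            have h8 : c / N * d ≤ (ct X W q p : ℝ) := hp
            linarith
          obtain ⟨y, hy1, hy2⟩ := h1
          rw [ct_symm hS hXi (hB ν' hν'.mt r)] at hy2
          obtain ⟨z, hz1, hz2⟩ := hZ2 y p hy2
          exact ⟨z, mem_biUnion.2 ⟨y, hy1, hz1⟩, by linarith⟩
      · subst hW'
        refine ⟨hRRi, ν, hν, fun q => ?_⟩
        obtain ⟨Y, hY1, hY2⟩ := cov_pop hν.mt d hd hdd r c hr hc0 q
        choose Z hZ1 hZ2 using fun y => cov_pop hν.mt d hd hdd (3 * r) c (by positivity) hc0 y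
        refine ⟨Y.biUnion Z, ?_, ?_⟩
        · have h1 : (((Y.biUnion Z).card : ℕ) : ℝ) ≤ ∑ y ∈ Y, ((Z y).card : ℝ) := by
            exact_mod_cast card_biUnion_le
          have h2 : ∑ y ∈ Y, ((Z y).card : ℝ) ≤ ∑ y ∈ Y, 1 / c :=
            sum_le_sum fun y _ => hZ1 y
          rw [sum_const, nsmul_eq_mul] at h2
          have h3 : (Y.card : ℝ) * (1 / c) ≤ 1 / c * (1 / c) :=
            mul_le_mul_of_nonneg_right hY1 (by positivity)
          rw [hN']
          nlinarith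
        · intro p hp
          rw [hRR] at hp
          obtain ⟨v, hv1, hv2⟩ := hp
          rw [hR] at hv1 hv2
          obtain ⟨y, hy1, hy2⟩ := hY2 v hv1
          have h1 : c * d ≤ (ct X (br ν (3 * r)) y p : ℝ) := by
            have h2 : c * d ≤ (ct X (br ν r) v p : ℝ) := hv2
            rw [ct_symm hS hXi (hB ν hν.mt r)] at h2
            rw [ct_symm hS hXi (hB ν hν.mt (3 * r))]
            refine h2.trans ?_
            have h3 : ct X (br ν r) p v ≤ ct X (br ν (3 * r)) p y := by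
              apply ct_mono (fun _ h => h)
              intro z hz
              unfold br at hz ⊢
              have h4 := hν.mt.tri z v y
              rw [hν.mt.symm v y] at h4
              linarith
            exact_mod_cast h3
          obtain ⟨z, hz1, hz2⟩ := hZ2 y p h1
          exact ⟨z, mem_biUnion.2 ⟨y, hy1, hz1⟩, by linarith⟩
    · intro x y hxy
      rw [hV'] at hxy
      rcases hxy with h | ⟨W, hW1, hW2⟩ | h
      · obtain ⟨W, hW1, hW2⟩ := hWV x y h
        exact ⟨W, mem_union_left _ hW1, hW2⟩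
      · exact ⟨Va W, mem_union_right _ (mem_union_left _ (mem_image_of_mem _ hW1)), hW2⟩
      · exact ⟨RR, mem_union_right _ (mem_union_right _ (mem_singleton_self _)), h⟩

end

end Pool.Agent.H57.FK
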