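import Pool.Agent.H57.AS.Col
import Pool.Agent.H57.FK.Spread

/-!
# Colouring, and the theorem for commutative association schemes, few classes, all clique numbers
-/

set_option autoImplicit false
set_option linter.unusedSectionVars false

open Finset
open scoped Classical

namespace Pool.Agent.H57.FK

open Pool.Agent.H57.AS hiding St Pc Cov stage_conc near stage_spread Hy stage grow covered deg_bound colour colourable
open Pool.Agent.W259.GS (Sh)

/-- near adjacent pairs can be coloured -/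
def Spc {Ω : Type} (A : Ω → Ω → Prop) (C₀ : ℕ) (ρ : ℝ) (ν : Ω → Ω → ℝ) : Prop :=
  ∃ c : Ω → Fin (C₀ + 1), ∀ x y, A x y → c x = c y → ρ ≤ ν x y

section
variable {Ω I : Type} [Fintype Ω] {cl : Ω → Ω → I}

/-- few separated points in a ball -/
theorem deg_bound {Sp : (Ω → Ω → ℝ) → Prop} {κ K : ℝ} {ν : Ω → Ω → ℝ} (hS : Sc cl)
    (hν : St cl Sp κ K ν) (hκ : 0 < κ) (hκ2 : κ ≤ 1 / 64) (Y : Finset Ω)
    (hY : ∀ z ∈ Y, ∀ z' ∈ Y, z ≠ z' → 2 * κ < ν z z') (w : Ω)
    (hw : ∀ z ∈ Y, ν w z ≤ 3 / 16) : (Y.card : ℝ) ≤ K := by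
  have hB0 : (0 : ℝ) < dg (br ν κ) w := by
    have : 0 < dg (br ν κ) w := by
      apply card_pos.2
      refine ⟨w, ?_⟩
      rw [mem_filter]
      refine ⟨mem_univ _, ?_⟩
      unfold br
      rw [hν.mt.zero]
      exact hκ.le
    exact_mod_cast this
  have h1 : Y.card * dg (br ν κ) w ≤ dg (br ν (1 / 4)) w := by
    have h2 : ∑ z ∈ Y, dg (br ν κ) z = Y.card * dg (br ν κ) w := by
      rw [sum_congr rfl fun z _ => dg_eq hS (hν.mt.iv κ) z w, sum_const, smul_eq_mul]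
    rw [← h2]
    have h3 : ∑ z ∈ Y, dg (br ν κ) z = (Y.biUnion fun z => univ.filter fun x => br ν κ z x).card := by
      rw [card_biUnion]
      · rfl
      intro z hz z' hz' hne
      change Disjoint (univ.filter fun x => br ν κ z x) (univ.filter fun x => br ν κ z' x)
      rw [disjoint_left]
      intro x hx hx'
      have h4 : ν z x ≤ κ := (mem_filter.1 hx).2
      have h5 : ν z' x ≤ κ := (mem_filter.1 hx').2
      have h6 := hY z hz z' hz' hne
      have h7 := hν.mt.tri z x z'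
      rw [hν.mt.symm x z'] at h7
      linarith
    rw [h3]
    apply card_le_dg
    intro x hx
    obtain ⟨z, hz, hx⟩ := mem_biUnion.1 hx
    have h4 : ν z x ≤ κ := (mem_filter.1 hx).2
    have h5 := hν.mt.tri w z x
    have h6 := hw z hz
    unfold br
    linarith
  have h2 : (Y.card : ℝ) * dg (br ν κ) w ≤ K * dg (br ν κ) w := by
    refine le_trans ?_ (hν.dbl w)
    exact_mod_cast h1
  exact le_of_mul_le_mul_right h2 hB0

/-- colouring of the edges of a thin relation -/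
theorem colour {A W : Ω → Ω → Prop} {C₀ : ℕ} {ρ κ K N : ℝ} (hS : Sc cl)
    (hW : Pc cl (Spc A C₀ ρ) κ K N (1 / 8) W) (hκ : 0 < κ) (hκ2 : κ ≤ 1 / 64) (hκρ : 4 * κ < ρ) :
    ∃ c : Ω → Fin (⌊N * K⌋₊ + 1) × Fin (C₀ + 1), ∀ x x', A x x' → W x x' → c x ≠ c x' := by
  obtain ⟨hWi, ν, hν, hcov⟩ := hW
  obtain ⟨Z, -, -, hZc, hZs⟩ := sep hν.mt (univ : Finset Ω) (univ : Finset Ω) κ 0 hκ.le
    (fun z _ => Nat.cast_nonneg _)
  choose! φ hφ1 hφ2 using fun z => hZc z (mem_univ z)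
  obtain ⟨R, hR⟩ : ∃ R : Ω → Ω → Prop, R = fun z z' => z ∈ Z ∧ z' ∈ Z ∧
    ∃ x x', ν z x ≤ 2 * κ ∧ ν z' x' ≤ 2 * κ ∧ W x x' := ⟨_, rfl⟩
  obtain ⟨c, hc⟩ := Pool.Agent.TH346.LG.greedy R (by
      intro z z' h
      rw [hR] at h ⊢
      obtain ⟨h1, h2, x, x', h3, h4, h5⟩ := h
      exact ⟨h2, h1, x', x, h4, h3, (hWi.comm hS _ _).1 h5⟩) (⌊N * K⌋₊ + 1) (by
      intro z Y hY
      rw [Nat.lt_succ_iff]
      apply Nat.le_floor
      obtain ⟨Y₀, hY1, hY2⟩ := hcov z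
      have h1 : Y ⊆ Y₀.biUnion fun y => Y.filter fun z' => ν y z' ≤ 3 / 16 := by
        intro z' hz'
        have h2 := hY z' hz'
        rw [hR] at h2
        obtain ⟨-, -, x, x', h3, h4, h5⟩ := h2
        obtain ⟨w, hw1, hw2⟩ := supp_comm hS (hν.mt.iv (2 * κ)) hWi (x := z) (z := x) (y := x') h3 h5
        obtain ⟨y, hy1, hy2⟩ := hY2 w hw1
        rw [mem_biUnion]
        refine ⟨y, hy1, mem_filter.2 ⟨hz', ?_⟩⟩
        have h6 := hν.mt.tri y w z'
        have h7 := hν.mt.tri w x' z'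
        have h8 : ν w x' ≤ 2 * κ := hw2
        rw [hν.mt.symm x' z'] at h7
        linarith
      have h2 : (Y.card : ℝ) ≤ ∑ y ∈ Y₀, ((Y.filter fun z' => ν y z' ≤ 3 / 16).card : ℝ) := by
        exact_mod_cast (card_le_card h1).trans card_biUnion_le
      have h3 : ∀ y ∈ Y₀, ((Y.filter fun z' => ν y z' ≤ 3 / 16).card : ℝ) ≤ K := by
        intro y _
        apply deg_bound hS hν hκ hκ2 _ _ y
        · intro a ha
          exact (mem_filter.1 ha).2
        · intro a ha b hb hab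
          have ha' := hY a (mem_filter.1 ha).1
          have hb' := hY b (mem_filter.1 hb).1
          rw [hR] at ha' hb'
          exact hZs a ha'.2.1 b hb'.2.1 hab
      have h4 := h2.trans (sum_le_sum h3)
      rw [sum_const, nsmul_eq_mul] at h4
      have hK0 : 0 ≤ K := by
        have := deg_bound hS hν hκ hκ2 ∅ (by simp) z (by simp)
        simpa using this
      exact h4.trans (mul_le_mul_of_nonneg_right hY1 hK0))
  obtain ⟨c', hc'⟩ := hν.sepa
  refine ⟨fun x => (c (φ x), c' x), ?_⟩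
  intro x x' hxA hxW heq
  have heq1 : c (φ x) = c (φ x') := congrArg Prod.fst heq
  have heq2 : c' x = c' x' := congrArg Prod.snd heq
  refine hc (φ x) (φ x') ?_ ?_ heq1
  · intro h
    have h1 := hc' _ _ hxA heq2
    have h2 := hν.mt.tri x (φ x) x'
    have h3 := hφ2 x
    have h4 := hφ2 x'
    rw [hν.mt.symm x (φ x)] at h2
    rw [← h] at h4
    linarith
  · rw [hR]
    exact ⟨hφ1 x, hφ1 x', x, x', hφ2 x, hφ2 x', hxW⟩

/-- a covered adjacency gives a colourable graph -/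
theorem colourable {A : Ω → Ω → Prop} {G : SimpleGraph Ω} (hS : Sc cl)
    (hG : ∀ x y, G.Adj x y ↔ A x y) {κ K N : ℝ}
    {C₀ : ℕ} {ρ : ℝ} (hκ : 0 < κ) (hκ2 : κ ≤ 1 / 64) (hκρ : 4 * κ < ρ)
    (hcov : Cov cl (Spc A C₀ ρ) κ K N (1 / 8) A) :
    G.Colorable (((⌊N * K⌋₊ + 1) * (C₀ + 1)) ^ ⌊N⌋₊) := by
  obtain ⟨𝒲, h1, h2, h3⟩ := hcov
  have hc : ∀ W : Ω → Ω → Prop, W ∈ 𝒲 → ∃ c : Ω → Fin (⌊N * K⌋₊ + 1) × Fin (C₀ + 1),
      ∀ x x', A x x' → W x x' → c x ≠ c x' :=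
    fun W hW => colour hS (h2 W hW) hκ hκ2 hκρ
  choose! c hc using hc
  let col : G.Coloring (↥𝒲 → Fin (⌊N * K⌋₊ + 1) × Fin (C₀ + 1)) :=
    SimpleGraph.Coloring.mk (fun x W => c W.1 x) (by
      intro x x' hxx h
      rw [hG] at hxx
      obtain ⟨W, hW, h4⟩ := h3 _ _ hxx
      exact hc W hW x x' hxx h4 (congrFun h ⟨W, hW⟩))
  have h4 := col.colorable
  rw [Fintype.card_fun, Fintype.card_prod, Fintype.card_fin, Fintype.card_fin, Fintype.card_coe] at h4
  refine h4.mono ?_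
  apply Nat.pow_le_pow_right (by positivity)
  exact Nat.le_floor h1

end

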