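import Pool.Agent.H57.FK.Col

/-!
# Few classes, all clique numbers: the induction on the clique number
-/

set_option autoImplicit false
set_option linter.unusedSectionVars false

open Finset
open scoped Classical

namespace Pool.Agent.H57.FK

open Pool.Agent.H57.AS (Sc Iv Mt nm tn ct dg br nm_mt tn_mt ct_symm dg_eq iv_fn fuse CommScheme Tr)

theorem pigeon (s : ℕ) (g : ℕ → ℕ) (h0 : g 0 ≤ s) (hg : ∀ j, g (j + 1) ≤ g j) :
    ∃ j ≤ s, g (j + 1) = g j := by
  by_contra hcon
  push Not at hcon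
  have h : ∀ j ≤ s + 1, g j + j ≤ s := by
    intro j hj
    induction j with
    | zero => simpa using h0
    | succ j ih =>
      have h1 := ih (by omega)
      have h2 := hg j
      have h3 := hcon j (by omega)
      omega
  have := h (s + 1) le_rfl
  omega

section
variable {Ω I : Type} [Fintype Ω] {cl : Ω → Ω → I}

/-- the classes of a relation -/
noncomputable def cls (cl : Ω → Ω → I) (P : Ω → Ω → Prop) : Finset I :=
  ((univ : Finset (Ω × Ω)).filter fun p => P p.1 p.2).image fun p => cl p.1 p.2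

theorem mem_cls {P : Ω → Ω → Prop} {i : I} : i ∈ cls cl P ↔ ∃ x y, P x y ∧ cl x y = i := by
  unfold cls
  simp only [mem_image, mem_filter, mem_univ, true_and, Prod.exists]

theorem cls_mono {P Q : Ω → Ω → Prop} (h : ∀ x y, P x y → Q x y) : cls cl P ⊆ cls cl Q := by
  intro i hi
  rw [mem_cls] at hi ⊢
  obtain ⟨x, y, h1, h2⟩ := hi
  exact ⟨x, y, h x y h1, h2⟩

/-- a radius at which no new class of `A` appears when it is multiplied by `M` -/
theorem stable {A : Ω → Ω → Prop} {ν : Ω → Ω → ℝ} (hν : Mt cl ν) (s : ℕ)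
    (hs : (cls cl A).card ≤ s) (ρ₁ M : ℝ) (hρ : 0 < ρ₁) (hM : 1 ≤ M) :
    ∃ ρ : ℝ, ρ₁ / M ^ (s + 1) ≤ ρ ∧ ρ ≤ ρ₁ ∧ ∀ x y, A x y → ν x y ≤ M * ρ → ν x y ≤ ρ := by
  have hM0 : 0 < M := by linarith
  have hanti : ∀ j, ρ₁ / M ^ (j + 1) ≤ ρ₁ / M ^ j := by
    intro j
    apply div_le_div_of_nonneg_left hρ.le (by positivity)
    exact pow_le_pow_right₀ hM (by omega)
  obtain ⟨j, hj, hjj⟩ := pigeon s (fun j => (cls cl fun x y => A x y ∧ ν x y ≤ ρ₁ / M ^ j).card)
    ((card_le_card (cls_mono fun x y h => h.1)).trans hs)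
    (fun j => card_le_card (cls_mono fun x y h => ⟨h.1, h.2.trans (hanti j)⟩))
  refine ⟨ρ₁ / M ^ (j + 1), ?_, ?_, ?_⟩
  · apply div_le_div_of_nonneg_left hρ.le (by positivity)
    exact pow_le_pow_right₀ hM (by omega)
  · apply div_le_self hρ.le
    exact one_le_pow₀ hM
  · intro x y hxy h
    have h1 : M * (ρ₁ / M ^ (j + 1)) = ρ₁ / M ^ j := by
      rw [pow_succ]
      field_simp
    rw [h1] at h
    have heq := eq_of_subset_of_card_le
      (cls_mono (cl := cl) (P := fun x y => A x y ∧ ν x y ≤ ρ₁ / M ^ (j + 1))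
        (Q := fun x y => A x y ∧ ν x y ≤ ρ₁ / M ^ j) fun x y h => ⟨h.1, h.2.trans (hanti j)⟩)
      hjj.ge
    have h2 : cl x y ∈ cls cl fun x y => A x y ∧ ν x y ≤ ρ₁ / M ^ j :=
      mem_cls.2 ⟨x, y, ⟨hxy, h⟩, rfl⟩
    rw [← heq, mem_cls] at h2
    obtain ⟨x', y', h3, h4⟩ := h2
    rw [hν.inv _ _ _ _ h4.symm]
    exact h3.2

/-- the graph of the near adjacent pairs -/
def Gn (G : SimpleGraph Ω) (ν : Ω → Ω → ℝ) (hν : Mt cl ν) (ρ : ℝ) : SimpleGraph Ω where
  Adj x y := G.Adj x y ∧ ν x y ≤ ρ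
  symm := ⟨fun x y h => ⟨h.1.symm, by rw [hν.symm]; exact h.2⟩⟩
  loopless := ⟨fun x h => G.loopless.irrefl x h.1⟩

/-- near adjacent vertices have a common neighbour -/
theorem gn_free {G : SimpleGraph Ω} {X : Ω → Ω → Prop} (hS : Sc cl) (hX : Iv cl X)
    (hXA : ∀ x y, X x y → G.Adj x y) (h0 : ∀ x, 0 < dg X x) (k : ℕ) (ρ : ℝ)
    (hρ : (k + 1 : ℝ) * ρ < 1) (hK : G.CliqueFree (k + 2)) :
    (Gn G (nm X) (nm_mt hS hX h0) ρ).CliqueFree (k + 1) := by
  intro s hs
  have hsc : s.card = k + 1 := hs.card_eq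
  obtain ⟨q₁, hq₁⟩ : s.Nonempty := by
    rw [← card_pos]
    omega
  have hd : (0 : ℝ) < dg X q₁ := by exact_mod_cast h0 q₁
  have hν := nm_mt hS hX h0
  obtain ⟨Nb, hNb⟩ : ∃ Nb : Finset Ω, Nb = univ.filter fun z => X q₁ z := ⟨_, rfl⟩
  have hNc : Nb.card = dg X q₁ := by rw [hNb]; rfl
  have hρ0 : 0 ≤ ρ ∨ s.card = 1 := by
    by_cases h1 : s.card = 1
    · exact Or.inr h1
    · left
      obtain ⟨q, hq, hne⟩ := s.exists_mem_ne (by omega) q₁
      have h2 : (Gn G (nm X) hν ρ).Adj q₁ q := hs.isClique hq₁ hq hne.symm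
      refine le_trans ?_ h2.2
      have h3 := hν.tri q₁ q q₁
      rw [hν.zero, hν.symm q q₁] at h3
      linarith
  -- the common neighbour
  have hz : ∃ z ∈ Nb, ∀ q ∈ s, X z q := by
    by_contra hcon
    push Not at hcon
    have h1 : Nb ⊆ s.biUnion fun q => Nb.filter fun z => ¬ X z q := by
      intro z hz
      obtain ⟨q, hq, hzq⟩ := hcon z hz
      exact mem_biUnion.2 ⟨q, hq, mem_filter.2 ⟨hz, hzq⟩⟩
    have h2 : ∀ q ∈ s, ((Nb.filter fun z => ¬ X z q).card : ℝ) ≤ max ρ 0 * dg X q₁ := by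
      intro q hq
      have h3 : nm X q₁ q ≤ max ρ 0 := by
        by_cases hqq : q₁ = q
        · rw [← hqq, hν.zero]
          exact le_max_right _ _
        · exact (hs.isClique hq₁ hq hqq).2.trans (le_max_left _ _)
      have h4 : (Nb.filter fun z => X z q).card = ct X X q₁ q := by
        rw [hNb, filter_filter]
        rfl
      have h5 : (Nb.filter fun z => X z q).card + (Nb.filter fun z => ¬ X z q).card = Nb.card :=
        card_filter_add_card_filter_not _
      have h6 : ((Nb.filter fun z => X z q).card : ℝ) + ((Nb.filter fun z => ¬ X z q).card : ℝ) =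
          dg X q₁ := by
        rw [← hNc]
        exact_mod_cast h5
      rw [h4] at h6
      unfold nm at h3
      have h7 : 1 - max ρ 0 ≤ (ct X X q₁ q : ℝ) / dg X q₁ := by linarith
      rw [le_div_iff₀ hd] at h7
      nlinarith
    have h3 : (Nb.card : ℝ) ≤ ∑ q ∈ s, ((Nb.filter fun z => ¬ X z q).card : ℝ) := by
      exact_mod_cast (card_le_card h1).trans card_biUnion_le
    have h4 := h3.trans (sum_le_sum h2)
    rw [sum_const, nsmul_eq_mul, hNc, hsc] at h4
    push_cast at h4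
    rcases hρ0 with h5 | h5
    · rw [max_eq_left h5] at h4
      nlinarith
    · -- one vertex only
      have h6 : k = 0 := by omega
      subst h6
      obtain ⟨q, hq⟩ := card_eq_one.1 h5
      have hqq : q = q₁ := by
        rw [hq, mem_singleton] at hq₁
        exact hq₁.symm
      subst hqq
      obtain ⟨z, hz⟩ := card_pos.1 (h0 q)
      rw [mem_filter] at hz
      have hzN : z ∈ Nb := by rw [hNb, mem_filter]; exact hz
      obtain ⟨q', hq', h7⟩ := hcon z hzN
      rw [hq, mem_singleton] at hq'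
      subst hq'
      exact h7 ((hX.comm hS _ _).1 hz.2)
  obtain ⟨z, -, hz⟩ := hz
  have hle : Gn G (nm X) (nm_mt hS hX h0) ρ ≤ G := by
    intro x y h
    exact h.1
  have h1 : G.IsNClique (k + 1) s := hs.mono hle
  exact hK _ (h1.insert (a := z) fun q hq => hXA _ _ (hz q hq))

/-- near adjacent pairs contain no induced tree -/
theorem gn_tree {G : SimpleGraph Ω} {ν : Ω → Ω → ℝ} (hν : Mt cl ν) {m : ℕ}
    (T : SimpleGraph (Fin (m + 1))) (hT : T.IsTree) (ρ : ℝ)
    (hst : ∀ x y, G.Adj x y → ν x y ≤ (m + 1) * ρ → ν x y ≤ ρ)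
    (hemp : IsEmpty (T ↪g G)) : IsEmpty (T ↪g Gn G ν hν ρ) := by
  refine ⟨fun e => hemp.false ?_⟩
  have hw : ∀ (a b : Fin (m + 1)) (p : T.Walk a b), ν (e a) (e b) ≤ p.length * ρ := by
    intro a b p
    induction p with
    | nil => simp [hν.zero]
    | @cons u v w h p ih =>
      have h1 : (Gn G ν hν ρ).Adj (e u) (e v) := e.map_rel_iff.2 h
      have h2 := hν.tri (e u) (e v) (e w)
      rw [SimpleGraph.Walk.length_cons]
      push_cast
      have := h1.2
      linarith
  have hle : ∀ a b : Fin (m + 1), G.Adj (e a) (e b) → ν (e a) (e b) ≤ (m + 1) * ρ := by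
    intro a b hab
    obtain ⟨p, hp⟩ := (hT.1.preconnected a b).exists_isPath
    have h1 := hp.length_lt
    rw [Fintype.card_fin] at h1
    have h2 := hw a b p
    have h3 : 0 ≤ ρ := by
      -- there is an edge
      have hne : a ≠ b := fun h => by
        rw [h] at hab
        exact G.loopless.irrefl _ hab
      cases p with
      | nil => exact absurd rfl hne
      | @cons _ v _ h p' =>
        have h4 : (Gn G ν hν ρ).Adj (e a) (e v) := e.map_rel_iff.2 h
        refine le_trans ?_ h4.2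
        have h5 := hν.tri (e a) (e v) (e a)
        rw [hν.zero, hν.symm (e v) (e a)] at h5
        linarith
    have h4 : (p.length : ℝ) ≤ m + 1 := by
      have : p.length ≤ m + 1 := by omega
      exact_mod_cast this
    exact h2.trans (mul_le_mul_of_nonneg_right h4 h3)
  exact
    { toFun := e
      inj' := e.injective
      map_rel_iff' := by
        intro a b
        show G.Adj (e a) (e b) ↔ T.Adj a b
        constructor
        · intro h
          exact e.map_rel_iff.1 ⟨h, hst _ _ h (hle a b h)⟩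
        · intro h
          exact (e.map_rel_iff.2 h).1 }

end

/-- the theorem for trees and symmetric schemes -/
theorem gs_tree (k : ℕ) : ∀ (m s : ℕ) (T : SimpleGraph (Fin (m + 1))), T.IsTree →
    ∃ C : ℕ, ∀ (Ω I : Type) [Fintype Ω] (G : SimpleGraph Ω) (cl : Ω → Ω → I), Sc cl →
      Iv cl G.Adj → (cls cl G.Adj).card ≤ s → G.CliqueFree (k + 1) → IsEmpty (T ↪g G) →
      G.Colorable C := by
  induction k with
  | zero =>
    intro m s T hT
    refine ⟨1, ?_⟩
    intro Ω I _ G cl _ _ _ hK _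
    have : IsEmpty Ω := SimpleGraph.cliqueFree_one.1 hK
    exact SimpleGraph.Colorable.of_isEmpty _
  | succ k ih =>
    intro m s T hT
    obtain ⟨C₀, hC₀⟩ := ih m s T hT
    obtain ⟨par, f, hf, hfn, hpar, hadj⟩ := Pool.Agent.K4H78.TW.tree_order m (Fin (m + 1)) T hT
      (by simp)
    obtain ⟨N₀, hN₀⟩ := Pool.Agent.W259.GS.noShatter T hT.2.colorable_two (k + 2)
    obtain ⟨ρ₁, hρ₁⟩ : ∃ ρ₁ : ℝ, ρ₁ = 1 / (2 * ((k : ℝ) + 1)) := ⟨_, rfl⟩
    have hρ₁0 : 0 < ρ₁ := by rw [hρ₁]; positivity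
    have hρ₁1 : ((k : ℝ) + 1) * ρ₁ = 1 / 2 := by rw [hρ₁]; field_simp
    obtain ⟨ρ, hρ⟩ : ∃ ρ : ℝ, ρ = ρ₁ / ((m : ℝ) + 1) ^ (s + 1) := ⟨_, rfl⟩
    have hM : (1 : ℝ) ≤ (m : ℝ) + 1 := by
      have : (0 : ℝ) ≤ m := Nat.cast_nonneg _
      linarith
    have hρ0 : 0 < ρ := by rw [hρ]; positivity
    have hρle : ρ ≤ 1 := by
      have h1 : ρ ≤ ρ₁ := by
        rw [hρ]
        exact div_le_self hρ₁0.le (one_le_pow₀ hM)
      have h2 : (0 : ℝ) ≤ k := Nat.cast_nonneg _
      nlinarith
    obtain ⟨κ, N, K, hκ, hκ2, hκρ, hN, hcov⟩ := covered (k + 1) (by omega) ρ hρ0 hρle m par hpar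
      N₀ T hT
    refine ⟨((⌊N * K⌋₊ + 1) * (C₀ + 1)) ^ ⌊N⌋₊, ?_⟩
    intro Ω I _ G cl hS hA hs hK hemp
    by_cases hne : Nonempty Ω
    swap
    · rw [not_nonempty_iff] at hne
      exact SimpleGraph.Colorable.of_isEmpty _
    apply colourable hS (fun x y => Iff.rfl) hκ hκ2 hκρ
    apply hcov Ω I G cl G.Adj
    refine ⟨hS, hA, fun x y => Iff.rfl, hK, ?_, ?_, fun Y hY => hN₀ Ω _ Y hK hemp hY, ?_, ?_, hne⟩
    · -- near adjacent pairs
      intro X hX hXA h0
      have hν := nm_mt hS hX h0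
      obtain ⟨ρ', h1, h2, h3⟩ := stable (A := G.Adj) hν s hs ρ₁ ((m : ℝ) + 1) hρ₁0 hM
      have h4 : (Gn G (nm X) hν ρ').CliqueFree (k + 1) := by
        apply gn_free hS hX hXA h0 k ρ' _ hK
        have h5 : ((k : ℝ) + 1) * ρ' ≤ ((k : ℝ) + 1) * ρ₁ :=
          mul_le_mul_of_nonneg_left h2 (by positivity)
        linarith
      have h5 := gn_tree (G := G) hν T hT ρ' h3 hemp
      have h6 : Iv cl (Gn G (nm X) hν ρ').Adj := by
        intro x y x' y' h h7
        exact ⟨hA _ _ _ _ h h7.1, by rw [← hν.inv _ _ _ _ h]; exact h7.2⟩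
      obtain ⟨c⟩ := hC₀ Ω I (Gn G (nm X) hν ρ') cl hS h6
        ((card_le_card (cls_mono fun x y h => h.1)).trans hs) h4 h5
      refine ⟨fun x => (c x).castSucc, ?_⟩
      intro x y hxy hc
      by_contra hcon
      push Not at hcon
      have h7 : (Gn G (nm X) hν ρ').Adj x y := by
        refine ⟨hxy, ?_⟩
        rw [hρ] at hcon
        linarith
      exact c.valid h7 (Fin.castSucc_injective _ hc)
    · refine ⟨fun _ => 0, ?_⟩
      intro x y hxy _
      unfold tn
      rw [if_neg hxy.ne]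
      exact hρle
    · rintro ⟨w, hw⟩
      have hinj : ∀ x y, f x < f y → w (f x) ≠ w (f y) := by
        intro x y hxy h
        exact (hw (f x) (f y) hxy (by have := hfn y; omega)).2.2 h
      have hadj' : ∀ x y, f x < f y → (G.Adj (w (f x)) (w (f y)) ↔ T.Adj x y) := by
        intro x y hxy
        rw [hadj x y hxy]
        have := hw (f x) (f y) hxy (by have := hfn y; omega)
        constructor
        · intro h
          by_contra h2
          exact this.2.1 h2 h
        · exact this.1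
      let g : T ↪g G :=
        { toFun := fun v => w (f v)
          inj' := by
            intro x y hxy
            rcases lt_trichotomy (f x) (f y) with h | h | h
            · exact absurd hxy (hinj x y h)
            · exact hf h
            · exact absurd hxy.symm (hinj y x h)
          map_rel_iff' := by
            intro x y
            show G.Adj (w (f x)) (w (f y)) ↔ T.Adj x y
            rcases lt_trichotomy (f x) (f y) with h | h | h
            · exact hadj' x y h
            · rw [hf h]; simp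
            · rw [SimpleGraph.adj_comm, hadj' y x h, T.adj_comm] }
      exact hemp.false g
    · intro g hg1 hg2
      let g' : T ↪g G :=
        { toFun := g
          inj' := hg1
          map_rel_iff' := by
            intro x y
            exact (hg2 x y).symm }
      exact hemp.false g'

/-- the theorem for symmetric schemes -/
theorem gs_sym {m : ℕ} (F : SimpleGraph (Fin m)) (hF : F.IsAcyclic) (k s : ℕ) :
    ∃ C : ℕ, ∀ (Ω I : Type) [Fintype Ω] (G : SimpleGraph Ω) (cl : Ω → Ω → I), Sc cl →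
      Iv cl G.Adj → (cls cl G.Adj).card ≤ s → G.CliqueFree (k + 1) → IsEmpty (F ↪g G) →
      G.Colorable C := by
  obtain ⟨T, hT, ⟨e⟩⟩ := Pool.Agent.H367R3.forest_in_tree F hF
  obtain ⟨C, hC⟩ := gs_tree k m s T hT
  refine ⟨C, ?_⟩
  intro Ω I _ G cl hS hA hs hK hemp
  exact hC Ω I G cl hS hA hs hK ⟨fun g => hemp.false (e.trans g)⟩

end Pool.Agent.H57.FK
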